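import Pool.Agent.Helper90.MZ.StmtsZ

set_option autoImplicit false

namespace Pool.Agent.Helper90.MZ

open Pool.Agent.Helper90.TS

theorem st_ZA (hTA : ST_TA) (hNT : ST_NT) (hCHN : ST_CHN) (hNWO : ST_NWO) (hUSEV : ST_USEV)
    (hSRL : ST_SRL) (hSUPB : ST_SUPB) (hSUPU : ST_SUPU) (hPRIM : ST_PRIM) (hMDLB : ST_MDLB)
    (hRLB : ST_RLB) (hNOEQ : ST_NOEQ) : ST_ZA := by
  intro V G _ _ X Q a d s t κ _ l z c hFew hZ hW r hr hrQ
  have : Nonempty V := ⟨r.z 0⟩
  have hrSR : SR X r := hr.1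
  have hrfin : r.A.Finite := hr.2.1
  have hrcnt : r.A.Countable := hrfin.countable
  have hcfin : ∀ i, (c i).Finite := by
    intro i
    obtain ⟨⟨n, f, hf, _⟩, _, _⟩ := hW.toWS.z3 i
    rw [← hf]
    exact Set.finite_range f
  have hWcnt : (WW a z c).Countable := by
    unfold WW
    refine hZ.afin.countable.union (Set.countable_iUnion fun i => ?_)
    exact ((Set.finite_range (z i)).union (hcfin i)).countable
  have haW : a ⊆ WW a z c := Set.subset_union_left
  have hWQ : WW a z c ⊆ Q := by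
    unfold WW
    refine Set.union_subset hZ.aQ (Set.iUnion_subset fun i => ?_)
    exact Set.union_subset (hW.inQ i).1 (hW.inQ i).2
  -- the model M
  obtain ⟨M, hM, hWM, hMi⟩ := (hMDLB V G X).2.1 (WW a z c) r.A (WW a z c) le_rfl hWcnt hrcnt
    (si_self_left hWcnt hrcnt le_rfl)
  have hMc : M.Countable := hM.1
  by_contra hnS
  have hnSp : ¬ Sp X M r := by
    intro hsp
    exact hnS (hSUPB V G X (WW a z c) M r hWM hM hrSR hMi hsp)
  -- the model N
  obtain ⟨N1, hN1, hMN1, _⟩ := (hMDLB V G X).2.1 (M ∪ r.A) ∅ (M ∪ r.A) le_rfl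
    (hMc.union hrcnt) Set.countable_empty si_empty_right
  obtain ⟨N, _, hN⟩ := hPRIM V G X (M ∪ r.A) N1 hN1 hMN1
  obtain ⟨hNm, hMN, hNat⟩ := hN
  obtain ⟨k, K, p, hch⟩ := hCHN V G X M N r.A hM hNm (Set.subset_union_left.trans hMN)
    (Set.subset_union_right.trans hMN) hrfin
  -- the supports
  have hSk : Sp X (K k) r := (hSUPU V G X).2.2.2.2.1 (K k) r hrSR hch.last
  have hS0 : ¬ Sp X (K 0) r := by rw [hch.zero]; exact hnSp
  have hex : ∃ i, i < k ∧ ¬ Sp X (K i) r ∧ Sp X (K (i + 1)) r := by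
    by_contra hno
    push Not at hno
    have hall : ∀ i, i ≤ k → ¬ Sp X (K i) r := by
      intro i
      induction i with
      | zero => intro _; exact hS0
      | succ m ih =>
        intro hm
        exact hno m (by omega) (ih (by omega))
    exact hall k le_rfl hSk
  obtain ⟨i, hik, hi1, hi2⟩ := hex
  -- monotonicity
  have hstep : ∀ j, j < k → K j ⊆ K (j + 1) := by
    intro j hj
    exact Set.subset_union_left.trans (hch.atm j hj).2.1
  have hmono : ∀ j, j ≤ k → M ⊆ K j := by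
    intro j
    induction j with
    | zero => intro _; rw [hch.zero]
    | succ m ih => intro hm; exact (ih (by omega)).trans (hstep m (by omega))
  have hKi : Mdl X (K i) := hch.mdl i hik.le
  have hKi1 : Mdl X (K (i + 1)) := hch.mdl (i + 1) hik
  obtain ⟨hpSR, hpA, hpz⟩ := hch.sr i hik
  have hpAK : (p i).A ⊆ K i := hpA.le
  have hRlp : Rl X (p i) (K i) (p i).z :=
    ⟨eqv_refl _ _, si_self_right hpA.ge⟩
  have hAct : Act X (p i) :=
    ⟨K i, K (i + 1), (p i).z, r, hKi, hpAK, hRlp, hch.atm i hik, hr, hi2, hi1⟩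
  obtain ⟨j, hj⟩ := hZ.t3 (p i) hpSR hAct
  obtain ⟨htSR, htA, htAct⟩ := hZ.t1 j
  have htW : (t j).A ⊆ WW a z c := htA.trans haW
  have htM : (t j).A ⊆ M := htW.trans hWM
  obtain ⟨y, hyK, hyR⟩ := hNWO V G X (t j) (p i) (K i) (K (i + 1)) (p i).z htSR hpSR
    ((hNOEQ V G X).2.1 _ _ hj) hKi (htM.trans (hmono i hik.le)) hpAK hRlp hKi1 (hstep i hik) hpz
  -- `y` realizes `t j | M`
  have hyM : Rl X (t j) M y :=
    (hRLB V G X (t j) htSR (K i) hKi.1).2.2.1 y hyR M
      ((hmono i hik.le).trans Set.subset_union_right)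
  have hyN : Set.range y ⊆ N := hyK.trans (hch.sub (i + 1) hik)
  have hynM : ¬ Set.range y ⊆ M :=
    (hRLB V G X (t j) htSR M hMc).2.2.2.2.2.2.2.1 y hyM hM htM
  have hyI : Isl X (M ∪ r.A) y := hNat 1 y hyN
  have hynI : ¬ SI X M (Set.range y) r.A := by
    intro h
    exact hynM (hUSEV V G X M r.A hM hrcnt (Fin 1) y hyI h)
  have e1 : (t j).A ∪ WW a z c = WW a z c := Set.union_eq_self_of_subset_left htW
  have e2 : WW a z c ∪ M = M := Set.union_eq_self_of_subset_left hWM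
  have hTriv : Triv X (t j) := hNT V G X (t j) hFew htSR htAct
  obtain ⟨z', hz'1, hz'2⟩ := hTA V G X (t j) (WW a z c) M r.A y htSR hTriv hWcnt hMc hrfin
    (by rw [e1]; exact hMi) (by rw [e2]; exact hyM) (by rw [e1, e2]; exact hynI)
  have hz'Q : Rl X (t j) Q z' :=
    hSRL V G X (t j) (WW a z c) Q htSR hZ.mdl (htW.trans hWQ) hWQ (hW.max j) z' hz'1
  have hz'3 : Rl X (t j) (WW a z c ∪ r.A) z' :=
    (hRLB V G X (t j) htSR Q hZ.mdl.1).2.2.1 z' hz'Q (WW a z c ∪ r.A)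
      ((Set.union_subset hWQ hrQ).trans Set.subset_union_right)
  exact hz'2 ((hRLB V G X (t j) htSR (WW a z c) hWcnt).2.2.2.2.1 z' r.A hrcnt hz'3)

end Pool.Agent.Helper90.MZ
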